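import Pool.Agent.W2helper14.KW.Lower

/-!
# KW-5: discretization of the configuration space
-/

set_option autoImplicit false

open MeasureTheory Real Pool.Agent.W2helper78.KW

namespace Pool.Agent.W2helper14.KW

noncomputable section

def toC (x : Fin 2 → ℝ) : ℂ := ⟨x 0, x 1⟩

/-- injective maps with a given image -/
theorem fiber (N : ℕ) (S : Finset (ℤ × ℤ)) : ∃ F : Finset (Fin N → ℤ × ℤ), F.card ≤ N.factorial ∧
    ∀ w : Fin N → ℤ × ℤ, Function.Injective w → Finset.univ.image w = S → w ∈ F := by
  classical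
  by_cases h : ∃ w0 : Fin N → ℤ × ℤ, Function.Injective w0 ∧ Finset.univ.image w0 = S
  · obtain ⟨w0, hi, hS⟩ := h
    refine ⟨Finset.univ.image (fun σ : Equiv.Perm (Fin N) => w0 ∘ σ), ?_, ?_⟩
    · refine le_trans Finset.card_image_le ?_
      rw [Finset.card_univ, Fintype.card_perm, Fintype.card_fin]
    · intro w hw hwS
      rw [Finset.mem_image]
      have hex : ∀ i, ∃ j, w0 j = w i := by
        intro i
        have : w i ∈ Finset.univ.image w0 := by
          rw [hS, ← hwS]
          exact Finset.mem_image_of_mem _ (Finset.mem_univ _)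
        obtain ⟨j, _, hj⟩ := Finset.mem_image.mp this
        exact ⟨j, hj⟩
      choose f hf using hex
      have hfi : Function.Injective f := by
        intro i j hij
        apply hw
        rw [← hf i, ← hf j, hij]
      refine ⟨Equiv.ofBijective f (Finite.injective_iff_bijective.mp hfi), Finset.mem_univ _, ?_⟩
      funext i
      exact hf i
  · refine ⟨∅, by simp, ?_⟩
    intro w hw hwS
    exact absurd ⟨w, hw, hwS⟩ h

theorem disc (hsum : SumStm) : DiscStm := by
  classical
  intro N L h T hL hh hh1 hT hfin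
  have hdsc : ∀ z w : ℂ, dsc h z = dsc h w → (z.re - w.re) ^ 2 + (z.im - w.im) ^ 2 < 1 := by
    intro z w hzw
    unfold dsc at hzw
    have h1 := congrArg Prod.fst hzw
    have h2 := congrArg Prod.snd hzw
    simp only at h1 h2
    have a1 := Int.abs_sub_lt_one_of_floor_eq_floor h1
    have a2 := Int.abs_sub_lt_one_of_floor_eq_floor h2
    have b1 : (z.re / h - w.re / h) ^ 2 < 1 := by
      rw [← sq_abs]; nlinarith [abs_nonneg (z.re / h - w.re / h)]
    have b2 : (z.im / h - w.im / h) ^ 2 < 1 := by
      rw [← sq_abs]; nlinarith [abs_nonneg (z.im / h - w.im / h)]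
    have e1 : (z.re - w.re) ^ 2 = h ^ 2 * (z.re / h - w.re / h) ^ 2 := by
      field_simp
    have e2 : (z.im - w.im) ^ 2 = h ^ 2 * (z.im / h - w.im / h) ^ 2 := by
      field_simp
    rw [e1, e2]
    nlinarith
  -- packings from configurations
  have hconf : ∀ x ∈ Conf N L, Function.Injective (fun i => dsc h (toC (x i))) ∧
      Finset.univ.image (fun i => dsc h (toC (x i))) ∈ SS h L T := by
    intro x hx
    have hd : ∀ i j, i ≠ j → 1 ≤ (x i 0 - x j 0) ^ 2 + (x i 1 - x j 1) ^ 2 := by
      intro i j hij
      have := hx.2 i j hij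
      rwa [Fin.sum_univ_two] at this
    have hinj0 : Function.Injective (fun i => dsc h (toC (x i))) := by
      intro i j hij
      by_contra hne
      have h1 := hdsc _ _ hij
      have h2 := hd i j hne
      simp only [toC] at h1
      linarith
    have hinj : Function.Injective (fun i => toC (x i)) := by
      intro i j hij
      apply hinj0
      simp only at hij ⊢
      rw [hij]
    refine ⟨hinj0, Finset.univ.image (fun i => toC (x i)), ?_, ?_, ?_, ?_⟩
    · intro z hz w hw hzw
      obtain ⟨i, _, rfl⟩ := Finset.mem_image.mp hz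
      obtain ⟨j, _, rfl⟩ := Finset.mem_image.mp hw
      have hij : i ≠ j := fun h => hzw (by rw [h])
      have h2 := hd i j hij
      rw [Complex.norm_def, Complex.normSq_apply]
      apply Real.le_sqrt_of_sq_le
      simp only [toC, Complex.sub_re, Complex.sub_im]
      linarith
    · intro z hz
      obtain ⟨i, _, rfl⟩ := Finset.mem_image.mp hz
      exact ⟨hx.1 i 0, hx.1 i 1⟩
    · refine le_trans (hsum _ L hL ?_ ?_) ?_
      · intro z hz w hw hzw
        obtain ⟨i, _, rfl⟩ := Finset.mem_image.mp hz
        obtain ⟨j, _, rfl⟩ := Finset.mem_image.mp hw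
        have hij : i ≠ j := fun h => hzw (by rw [h])
        have h2 := hd i j hij
        rw [Complex.norm_def, Complex.normSq_apply]
        apply Real.le_sqrt_of_sq_le
        simp only [toC, Complex.sub_re, Complex.sub_im]
        linarith
      · intro z hz
        obtain ⟨i, _, rfl⟩ := Finset.mem_image.mp hz
        exact ⟨hx.1 i 0, hx.1 i 1⟩
      · rw [Finset.card_image_of_injective _ hinj, Finset.card_univ, Fintype.card_fin]
        exact hT
    · rw [Finset.image_image]
      rfl
  choose F hF1 hF2 using fiber N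
  let B : Finset (Fin N → ℤ × ℤ) := hfin.toFinset.biUnion F
  have hBcard : (B.card : ℝ) ≤ N.factorial * (SS h L T).ncard := by
    have h1 : B.card ≤ hfin.toFinset.card * N.factorial :=
      Finset.card_biUnion_le_card_mul _ _ _ (fun S _ => hF1 S)
    rw [Set.ncard_eq_toFinset_card _ hfin]
    rw [mul_comm]
    exact_mod_cast h1
  let cc : (Fin N → ℤ × ℤ) → Fin N → Fin 2 → ℝ := fun w i =>
    ![h * (w i).1 + h / 2, h * (w i).2 + h / 2]
  have hcover : Conf N L ⊆ ⋃ w ∈ B, cube N (h / 2) (cc w) := by
    intro x hx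
    obtain ⟨hi, hS⟩ := hconf x hx
    rw [Set.mem_iUnion₂]
    refine ⟨fun i => dsc h (toC (x i)), ?_, ?_⟩
    · rw [Finset.mem_biUnion]
      exact ⟨_, hfin.mem_toFinset.mpr hS, hF2 _ _ hi rfl⟩
    · intro i _ k _
      fin_cases k
      · have h1 := Int.floor_le (x i 0 / h)
        have h2 := Int.lt_floor_add_one (x i 0 / h)
        rw [le_div_iff₀ hh] at h1
        rw [div_lt_iff₀ hh] at h2
        show x i 0 ∈ Set.Icc (h * (⌊x i 0 / h⌋ : ℝ) + h / 2 - h / 2)
          (h * (⌊x i 0 / h⌋ : ℝ) + h / 2 + h / 2)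
        constructor <;> linarith
      · have h1 := Int.floor_le (x i 1 / h)
        have h2 := Int.lt_floor_add_one (x i 1 / h)
        rw [le_div_iff₀ hh] at h1
        rw [div_lt_iff₀ hh] at h2
        show x i 1 ∈ Set.Icc (h * (⌊x i 1 / h⌋ : ℝ) + h / 2 - h / 2)
          (h * (⌊x i 1 / h⌋ : ℝ) + h / 2 + h / 2)
        constructor <;> linarith
  have hvol : ∀ w, volume.real (cube N (h / 2) (cc w)) = h ^ (2 * N) := by
    intro w
    rw [cube_vol N (h / 2) (by linarith)]
    congr 1
    ring
  have hcubefin : ∀ w, volume (cube N (h / 2) (cc w)) ≠ ⊤ := by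
    intro w
    unfold cube
    rw [volume_pi_pi]
    simp only [volume_pi_pi, Real.volume_Icc]
    simp [ENNReal.ofReal_ne_top]
  have hUfin : volume (⋃ w ∈ B, cube N (h / 2) (cc w)) ≠ ⊤ := by
    refine ne_top_of_le_ne_top ?_ (measure_biUnion_finset_le B _)
    exact ENNReal.sum_ne_top.mpr (fun w _ => hcubefin w)
  calc volume.real (Conf N L) ≤ volume.real (⋃ w ∈ B, cube N (h / 2) (cc w)) :=
        measureReal_mono hcover hUfin
    _ ≤ ∑ w ∈ B, volume.real (cube N (h / 2) (cc w)) := measureReal_biUnion_finset_le B _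
    _ = B.card * h ^ (2 * N) := by
        rw [Finset.sum_congr rfl (fun w _ => hvol w), Finset.sum_const, nsmul_eq_mul]
    _ ≤ (N.factorial * (SS h L T).ncard) * h ^ (2 * N) := by gcongr
    _ = N.factorial * (h ^ (2 * N) * (SS h L T).ncard) := by ring

end

end Pool.Agent.W2helper14.KW
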