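import Pool.Agent.W2helper78.KW.Stm

/-!
# KW-6: lower bound for the volume of the configuration space (hexagonal arrangement)
-/

set_option autoImplicit false

open MeasureTheory Real Pool.Agent.W2helper78.KW

namespace Pool.Agent.W2helper14.KW

noncomputable section

/-- the centres -/
def cx (b : ℝ) (i j : ℕ) : ℝ := (b - 1) / 4 + b * i + (j % 2 : ℕ) * (b / 2)

def cy (b : ℝ) (j : ℕ) : ℝ := (b - 1) / 4 + j * (b * (√3 / 2))

def ctr (b : ℝ) (q : ℕ × ℕ) : Fin 2 → ℝ := ![cx b q.1 q.2, cy b q.2]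

theorem cy_diff (b : ℝ) (j j' : ℕ) : cy b j - cy b j' = ((j : ℝ) - j') * (b * (√3 / 2)) := by
  unfold cy; ring

/-- distances of the centres -/
theorem ctr_dist (b : ℝ) (hb : 1 < b) (q q' : ℕ × ℕ) (hq : q ≠ q') :
    b ^ 2 ≤ (cx b q.1 q.2 - cx b q'.1 q'.2) ^ 2 + (cy b q.2 - cy b q'.2) ^ 2 := by
  obtain ⟨i, j⟩ := q
  obtain ⟨i', j'⟩ := q'
  simp only
  have h3 : (√3 : ℝ) ^ 2 = 3 := Real.sq_sqrt (by norm_num)
  rw [cy_diff]
  have e1 : (((j : ℝ) - j') * (b * (√3 / 2))) ^ 2 = ((j : ℝ) - j') ^ 2 * (3 / 4) * b ^ 2 := by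
    have : (((j : ℝ) - j') * (b * (√3 / 2))) ^ 2 = ((j : ℝ) - j') ^ 2 * ((√3) ^ 2 / 4) * b ^ 2 := by ring
    rw [this, h3]
  rw [e1]
  have hb0 : 0 < b ^ 2 := by positivity
  rcases Nat.lt_trichotomy j j' with hj | hj | hj
  · -- j < j'
    rcases Nat.lt_or_ge (j + 1) j' with h2 | h2
    · have : (2 : ℝ) ≤ (j' : ℝ) - j := by
        have : ((j : ℝ) + 2) ≤ j' := by exact_mod_cast h2
        linarith
      have h4 : (4 : ℝ) ≤ ((j : ℝ) - j') ^ 2 := by nlinarith
      have h5 : 4 * (3 / 4) * b ^ 2 ≤ ((j : ℝ) - j') ^ 2 * (3 / 4) * b ^ 2 := by gcongr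
      have h6 := sq_nonneg (cx b i j - cx b i' j')
      linarith
    · have hj1 : j' = j + 1 := by omega
      subst hj1
      have hx : b ^ 2 / 4 ≤ (cx b i j - cx b i' (j + 1)) ^ 2 := by
        unfold cx
        rcases Nat.even_or_odd j with he | ho
        · have h0 : j % 2 = 0 := Nat.even_iff.mp he
          have h1 : (j + 1) % 2 = 1 := by omega
          rw [h0, h1]
          have : ((b - 1) / 4 + b * (i : ℝ) + ((0 : ℕ) : ℝ) * (b / 2) -
            ((b - 1) / 4 + b * (i' : ℝ) + ((1 : ℕ) : ℝ) * (b / 2))) ^ 2 =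
              b ^ 2 / 4 * (2 * ((i : ℤ) - i' : ℤ) - 1 : ℝ) ^ 2 := by
            push_cast; ring
          rw [this]
          have hodd : (1 : ℝ) ≤ (2 * ((i : ℤ) - i' : ℤ) - 1 : ℝ) ^ 2 := by
            have : (1 : ℤ) ≤ (2 * ((i : ℤ) - i') - 1) ^ 2 := by
              have hne : (2 * ((i : ℤ) - i') - 1) ≠ 0 := by omega
              have := sq_pos_of_ne_zero hne |>.le
              have h' : 0 < (2 * ((i : ℤ) - i') - 1) ^ 2 := by positivity
              omega
            exact_mod_cast this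
          nlinarith
        · have h0 : j % 2 = 1 := Nat.odd_iff.mp ho
          have h1 : (j + 1) % 2 = 0 := by omega
          rw [h0, h1]
          have : ((b - 1) / 4 + b * (i : ℝ) + ((1 : ℕ) : ℝ) * (b / 2) -
            ((b - 1) / 4 + b * (i' : ℝ) + ((0 : ℕ) : ℝ) * (b / 2))) ^ 2 =
              b ^ 2 / 4 * (2 * ((i : ℤ) - i' : ℤ) + 1 : ℝ) ^ 2 := by
            push_cast; ring
          rw [this]
          have hodd : (1 : ℝ) ≤ (2 * ((i : ℤ) - i' : ℤ) + 1 : ℝ) ^ 2 := by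
            have : (1 : ℤ) ≤ (2 * ((i : ℤ) - i') + 1) ^ 2 := by
              have hne : (2 * ((i : ℤ) - i') + 1) ≠ 0 := by omega
              have h' : 0 < (2 * ((i : ℤ) - i') + 1) ^ 2 := by positivity
              omega
            exact_mod_cast this
          nlinarith
      have : ((j : ℝ) - ((j + 1 : ℕ) : ℝ)) ^ 2 = 1 := by push_cast; ring
      rw [this]
      linarith
  · subst hj
    have hi : i ≠ i' := fun h => hq (by rw [h])
    have : cx b i j - cx b i' j = b * (((i : ℤ) - i' : ℤ) : ℝ) := by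
      unfold cx; push_cast; ring
    rw [this]
    have h1 : (1 : ℝ) ≤ (((i : ℤ) - i' : ℤ) : ℝ) ^ 2 := by
      have : (1 : ℤ) ≤ ((i : ℤ) - i') ^ 2 := by
        have hne : ((i : ℤ) - i') ≠ 0 := by omega
        have h' : 0 < ((i : ℤ) - i') ^ 2 := by positivity
        omega
      exact_mod_cast this
    nlinarith
  · rcases Nat.lt_or_ge (j' + 1) j with h2 | h2
    · have : (2 : ℝ) ≤ (j : ℝ) - j' := by
        have : ((j' : ℝ) + 2) ≤ j := by exact_mod_cast h2
        linarith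
      have h4 : (4 : ℝ) ≤ ((j : ℝ) - j') ^ 2 := by nlinarith
      have h5 : 4 * (3 / 4) * b ^ 2 ≤ ((j : ℝ) - j') ^ 2 * (3 / 4) * b ^ 2 := by gcongr
      have h6 := sq_nonneg (cx b i j - cx b i' j')
      linarith
    · have hj1 : j = j' + 1 := by omega
      subst hj1
      have hx : b ^ 2 / 4 ≤ (cx b i (j' + 1) - cx b i' j') ^ 2 := by
        unfold cx
        rcases Nat.even_or_odd j' with he | ho
        · have h0 : j' % 2 = 0 := Nat.even_iff.mp he
          have h1 : (j' + 1) % 2 = 1 := by omega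
          rw [h0, h1]
          have : ((b - 1) / 4 + b * (i : ℝ) + ((1 : ℕ) : ℝ) * (b / 2) -
            ((b - 1) / 4 + b * (i' : ℝ) + ((0 : ℕ) : ℝ) * (b / 2))) ^ 2 =
              b ^ 2 / 4 * (2 * ((i : ℤ) - i' : ℤ) + 1 : ℝ) ^ 2 := by
            push_cast; ring
          rw [this]
          have hodd : (1 : ℝ) ≤ (2 * ((i : ℤ) - i' : ℤ) + 1 : ℝ) ^ 2 := by
            have : (1 : ℤ) ≤ (2 * ((i : ℤ) - i') + 1) ^ 2 := by
              have hne : (2 * ((i : ℤ) - i') + 1) ≠ 0 := by omega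
              have h' : 0 < (2 * ((i : ℤ) - i') + 1) ^ 2 := by positivity
              omega
            exact_mod_cast this
          nlinarith
        · have h0 : j' % 2 = 1 := Nat.odd_iff.mp ho
          have h1 : (j' + 1) % 2 = 0 := by omega
          rw [h0, h1]
          have : ((b - 1) / 4 + b * (i : ℝ) + ((0 : ℕ) : ℝ) * (b / 2) -
            ((b - 1) / 4 + b * (i' : ℝ) + ((1 : ℕ) : ℝ) * (b / 2))) ^ 2 =
              b ^ 2 / 4 * (2 * ((i : ℤ) - i' : ℤ) - 1 : ℝ) ^ 2 := by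
            push_cast; ring
          rw [this]
          have hodd : (1 : ℝ) ≤ (2 * ((i : ℤ) - i' : ℤ) - 1 : ℝ) ^ 2 := by
            have : (1 : ℤ) ≤ (2 * ((i : ℤ) - i') - 1) ^ 2 := by
              have hne : (2 * ((i : ℤ) - i') - 1) ≠ 0 := by omega
              have h' : 0 < (2 * ((i : ℤ) - i') - 1) ^ 2 := by positivity
              omega
            exact_mod_cast this
          nlinarith
      have : (((j' + 1 : ℕ) : ℝ) - (j' : ℝ)) ^ 2 = 1 := by push_cast; ring
      rw [this]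
      linarith

/-- a perturbation lemma -/
theorem pert (b u1 u2 v1 v2 : ℝ) (hb : 1 < b) (hu : b ^ 2 ≤ u1 ^ 2 + u2 ^ 2)
    (h1 : |v1| ≤ (b - 1) / 2) (h2 : |v2| ≤ (b - 1) / 2) : 1 ≤ (u1 + v1) ^ 2 + (u2 + v2) ^ 2 := by
  have hv1 : v1 ^ 2 ≤ ((b - 1) / 2) ^ 2 := sq_le_sq' (by linarith [(abs_le.mp h1).1]) (abs_le.mp h1).2
  have hv2 : v2 ^ 2 ≤ ((b - 1) / 2) ^ 2 := sq_le_sq' (by linarith [(abs_le.mp h2).1]) (abs_le.mp h2).2
  set U := √(u1 ^ 2 + u2 ^ 2) with hU
  set V := √(v1 ^ 2 + v2 ^ 2) with hV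
  have hU0 : 0 ≤ U := Real.sqrt_nonneg _
  have hV0 : 0 ≤ V := Real.sqrt_nonneg _
  have hUs : U ^ 2 = u1 ^ 2 + u2 ^ 2 := Real.sq_sqrt (by positivity)
  have hVs : V ^ 2 = v1 ^ 2 + v2 ^ 2 := Real.sq_sqrt (by positivity)
  have hUb : b ≤ U := by
    apply Real.le_sqrt_of_sq_le; exact hu
  have hVb : V ≤ b - 1 := by
    apply Real.sqrt_le_iff.mpr
    constructor
    · linarith
    · nlinarith
  have hcs : -(U * V) ≤ u1 * v1 + u2 * v2 := by
    have : (u1 * v1 + u2 * v2) ^ 2 ≤ (U * V) ^ 2 := by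
      rw [mul_pow, hUs, hVs]
      nlinarith [sq_nonneg (u1 * v2 - u2 * v1)]
    exact (abs_le.mp (abs_le_of_sq_le_sq this (by positivity))).1
  have : (u1 + v1) ^ 2 + (u2 + v2) ^ 2 = U ^ 2 + 2 * (u1 * v1 + u2 * v2) + V ^ 2 := by
    rw [hUs, hVs]; ring
  rw [this]
  have : 1 ≤ U - V := by linarith
  nlinarith

theorem conf_fin (N : ℕ) (L : ℝ) : volume (Conf N L) ≠ ⊤ := by
  have hsub : Conf N L ⊆ Set.pi Set.univ (fun _ : Fin N => Set.pi Set.univ
      (fun _ : Fin 2 => Set.Icc (0 : ℝ) L)) := by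
    intro x hx i _ k _
    exact hx.1 i k
  apply ne_top_of_le_ne_top _ (measure_mono hsub)
  rw [volume_pi_pi]
  simp only [volume_pi_pi, Real.volume_Icc]
  simp [ENNReal.ofReal_ne_top]

/-- the cube around a family of centres -/
def cube (N : ℕ) (δ : ℝ) (c : Fin N → Fin 2 → ℝ) : Set (Fin N → Fin 2 → ℝ) :=
  Set.pi Set.univ (fun i : Fin N => Set.pi Set.univ
      (fun k : Fin 2 => Set.Icc (c i k - δ) (c i k + δ)))

theorem cube_meas (N : ℕ) (δ : ℝ) (c : Fin N → Fin 2 → ℝ) : MeasurableSet (cube N δ c) := by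
  apply MeasurableSet.univ_pi
  intro i
  apply MeasurableSet.univ_pi
  intro k
  exact measurableSet_Icc

theorem cube_vol (N : ℕ) (δ : ℝ) (hδ : 0 ≤ δ) (c : Fin N → Fin 2 → ℝ) :
    volume.real (cube N δ c) = (2 * δ) ^ (2 * N) := by
  unfold cube
  rw [Measure.real, volume_pi_pi]
  simp only [volume_pi_pi, Real.volume_Icc]
  have : ∀ (i : Fin N) (k : Fin 2), c i k + δ - (c i k - δ) = 2 * δ := by intro i k; ring
  simp only [this, Finset.prod_const, Finset.card_univ, Fintype.card_fin]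
  rw [← pow_mul, ENNReal.toReal_pow, ENNReal.toReal_ofReal (by linarith)]

theorem lower : LowerStm := by
  intro b L N hb hL hN
  set m := ⌊L / b⌋₊ with hm
  set n := ⌊2 * L / (√3 * b)⌋₊ with hn
  have hb0 : 0 < b := by linarith
  have h30 : (0 : ℝ) < √3 := Real.sqrt_pos.mpr (by norm_num)
  have h3 : (√3 : ℝ) ^ 2 = 3 := Real.sq_sqrt (by norm_num)
  have h31 : (1 : ℝ) ≤ √3 := by nlinarith
  set δ := (b - 1) / 4 with hδ
  have hδ0 : 0 < δ := by rw [hδ]; linarith
  -- choose an embedding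
  obtain ⟨e⟩ : Nonempty (Fin N ↪ Fin m × Fin n) := by
    apply Function.Embedding.nonempty_of_card_le
    simpa using hN
  let c : Fin N → Fin 2 → ℝ := fun i => ctr b ((e i).1.1, (e i).2.1)
  have hcne : ∀ i j : Fin N, i ≠ j → b ^ 2 ≤ (c i 0 - c j 0) ^ 2 + (c i 1 - c j 1) ^ 2 := by
    intro i j hij
    have hne : ((e i).1.1, (e i).2.1) ≠ ((e j).1.1, (e j).2.1) := by
      intro h
      apply hij
      apply e.injective
      have h1 := congrArg Prod.fst h
      have h2 := congrArg Prod.snd h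
      exact Prod.ext (Fin.ext h1) (Fin.ext h2)
    exact ctr_dist b hb _ _ hne
  -- position of the centres
  have hm1 : (m : ℝ) * b ≤ L := by
    have := Nat.floor_le (a := L / b) (by positivity)
    rw [← hm] at this
    rwa [le_div_iff₀ hb0] at this
  have hn1 : (n : ℝ) * (b * (√3 / 2)) ≤ L := by
    have := Nat.floor_le (a := 2 * L / (√3 * b)) (by positivity)
    rw [← hn] at this
    rw [le_div_iff₀ (by positivity)] at this
    linarith
  have hc0 : ∀ i, δ ≤ c i 0 ∧ c i 0 + δ ≤ L := by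
    intro i
    show δ ≤ cx b (e i).1.1 (e i).2.1 ∧ cx b (e i).1.1 (e i).2.1 + δ ≤ L
    unfold cx
    have h1 : ((e i).1.1 : ℝ) + 1 ≤ m := by exact_mod_cast (e i).1.2
    have h2 : (((e i).2.1 % 2 : ℕ) : ℝ) ≤ 1 := by
      exact_mod_cast Nat.lt_succ_iff.mp (Nat.mod_lt _ (by norm_num))
    have h4 : (0 : ℝ) ≤ (((e i).2.1 % 2 : ℕ) : ℝ) := by positivity
    have h5 : (0 : ℝ) ≤ ((e i).1.1 : ℝ) := by positivity
    constructor
    · rw [hδ]
      have : 0 ≤ b * ((e i).1.1 : ℝ) + (((e i).2.1 % 2 : ℕ) : ℝ) * (b / 2) := by positivity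
      linarith
    · rw [hδ]
      have h6 : b * ((e i).1.1 : ℝ) ≤ m * b - b := by nlinarith
      have h7 : (((e i).2.1 % 2 : ℕ) : ℝ) * (b / 2) ≤ b / 2 := by nlinarith
      linarith
  have hc1 : ∀ i, δ ≤ c i 1 ∧ c i 1 + δ ≤ L := by
    intro i
    show δ ≤ cy b (e i).2.1 ∧ cy b (e i).2.1 + δ ≤ L
    unfold cy
    have h1 : ((e i).2.1 : ℝ) + 1 ≤ n := by exact_mod_cast (e i).2.2
    have h5 : (0 : ℝ) ≤ ((e i).2.1 : ℝ) := by positivity
    have h6 : 0 < b * (√3 / 2) := by positivity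
    constructor
    · rw [hδ]
      have : 0 ≤ ((e i).2.1 : ℝ) * (b * (√3 / 2)) := by positivity
      linarith
    · rw [hδ]
      have h7 : ((e i).2.1 : ℝ) * (b * (√3 / 2)) + b * (√3 / 2) ≤ n * (b * (√3 / 2)) := by nlinarith
      have h8 : (b - 1) / 2 ≤ b * (√3 / 2) := by nlinarith
      linarith
  -- the cubes
  let Q : Equiv.Perm (Fin N) → Set (Fin N → Fin 2 → ℝ) := fun σ => cube N δ (fun i => c (σ i))
  have hQsub : ∀ σ, Q σ ⊆ Conf N L := by
    intro σ x hx
    have hx' : ∀ i k, c (σ i) k - δ ≤ x i k ∧ x i k ≤ c (σ i) k + δ := by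
      intro i k
      exact hx i (Set.mem_univ _) k (Set.mem_univ _)
    refine ⟨?_, ?_⟩
    · intro i k
      have h := hx' i k
      fin_cases k
      · have := hc0 (σ i)
        constructor
        · have h' := h.1
          simp only [Fin.zero_eta] at h' ⊢
          linarith
        · have h' := h.2
          simp only [Fin.zero_eta] at h' ⊢
          linarith
      · have := hc1 (σ i)
        constructor
        · have h' := h.1
          simp only [Fin.mk_one] at h' ⊢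
          linarith
        · have h' := h.2
          simp only [Fin.mk_one] at h' ⊢
          linarith
    · intro i j hij
      rw [Fin.sum_univ_two]
      have hs : σ i ≠ σ j := fun h => hij (σ.injective h)
      have hd := hcne _ _ hs
      have a0 := hx' i 0
      have a1 := hx' i 1
      have b0 := hx' j 0
      have b1 := hx' j 1
      have key := pert b (c (σ i) 0 - c (σ j) 0) (c (σ i) 1 - c (σ j) 1)
        ((x i 0 - c (σ i) 0) - (x j 0 - c (σ j) 0)) ((x i 1 - c (σ i) 1) - (x j 1 - c (σ j) 1)) hb hd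
        (by rw [abs_le]; constructor <;> linarith) (by rw [abs_le]; constructor <;> linarith)
      have e0 : c (σ i) 0 - c (σ j) 0 + ((x i 0 - c (σ i) 0) - (x j 0 - c (σ j) 0)) = x i 0 - x j 0 := by
        ring
      have e1 : c (σ i) 1 - c (σ j) 1 + ((x i 1 - c (σ i) 1) - (x j 1 - c (σ j) 1)) = x i 1 - x j 1 := by
        ring
      rw [e0, e1] at key
      exact key
  have hQdisj : Pairwise (Function.onFun Disjoint Q) := by
    intro σ τ hst
    rw [Function.onFun, Set.disjoint_left]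
    intro x hx hy
    apply hst
    ext i
    by_contra hne
    have hne' : σ i ≠ τ i := fun h => hne (by rw [h])
    have hd := hcne _ _ hne'
    have hx' : ∀ k, c (σ i) k - δ ≤ x i k ∧ x i k ≤ c (σ i) k + δ := by
      intro k
      exact hx i (Set.mem_univ _) k (Set.mem_univ _)
    have hy' : ∀ k, c (τ i) k - δ ≤ x i k ∧ x i k ≤ c (τ i) k + δ := by
      intro k
      exact hy i (Set.mem_univ _) k (Set.mem_univ _)
    have a0 := hx' 0
    have a1 := hx' 1
    have b0 := hy' 0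
    have b1 := hy' 1
    have s0 : (c (σ i) 0 - c (τ i) 0) ^ 2 ≤ (2 * δ) ^ 2 :=
      sq_le_sq' (by linarith) (by linarith)
    have s1 : (c (σ i) 1 - c (τ i) 1) ^ 2 ≤ (2 * δ) ^ 2 :=
      sq_le_sq' (by linarith) (by linarith)
    have : b ^ 2 ≤ (b - 1) ^ 2 / 2 := by
      have : (2 * δ) ^ 2 = (b - 1) ^ 2 / 4 := by rw [hδ]; ring
      linarith
    nlinarith
  have hunion : volume.real (⋃ σ, Q σ) = ∑ σ : Equiv.Perm (Fin N), volume.real (Q σ) := by
    refine measureReal_iUnion_fintype hQdisj (fun σ => cube_meas _ _ _) (fun σ => ?_)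
    exact ne_top_of_le_ne_top (conf_fin N L) (measure_mono (hQsub σ))
  have hsum : ∑ σ : Equiv.Perm (Fin N), volume.real (Q σ) = N.factorial * ((b - 1) / 2) ^ (2 * N) := by
    have : ∀ σ : Equiv.Perm (Fin N), volume.real (Q σ) = ((b - 1) / 2) ^ (2 * N) := by
      intro σ
      show volume.real (cube N δ _) = _
      rw [cube_vol N δ hδ0.le]
      congr 1
      rw [hδ]; ring
    rw [Finset.sum_congr rfl (fun σ _ => this σ), Finset.sum_const, Finset.card_univ,
      Fintype.card_perm, Fintype.card_fin, nsmul_eq_mul]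
  rw [← hsum, ← hunion]
  exact measureReal_mono (Set.iUnion_subset hQsub) (conf_fin N L)

end

end Pool.Agent.W2helper14.KW
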